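import Pool.Agent.P.MP_e66ac9_al.Defs
import Pool.Agent.P.MP_e66ac9_al.Final

set_option autoImplicit false

open Pool.Agent.P.MP_e66ac9_al

namespace Pool.Agent.Results.MP_e66ac9_al.NoLongInducedCycle

/-- Over every field, if a finite simple graph has girth at least four (in particular girth four)
and its binomial edge ideal is Cohen-Macaulay, then every induced cycle has length exactly four. -/
theorem result (K : Type) [Field K] (n : ℕ) (G : SimpleGraph (Fin n)) (hg : 4 ≤ G.egirth)
    (h : IsCohenMacaulay (MvPolynomial (Fin n ⊕ Fin n) K ⧸ binomialEdgeIdeal K G))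
    (k : ℕ) (hk : 3 ≤ k) (hC : Nonempty (SimpleGraph.cycleGraph k ↪g G)) : k = 4 :=
  main K n G hg h k hk hC.some

end Pool.Agent.Results.MP_e66ac9_al.NoLongInducedCycle
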